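import Pool.Agent.W854.HW.Stmts

/-! Project HW (helper854), parts IND and POW. -/

set_option autoImplicit false

open MeasureTheory ProbabilityTheory
open scoped ENNReal

namespace Pool.Agent.W99.HW

theorem ind_aux {Ω Ω₁ Ω₂ : Type} [mΩ : MeasurableSpace Ω] [MeasurableSpace Ω₁]
    [MeasurableSpace Ω₂] (P : Measure Ω) [IsProbabilityMeasure P] (f : Ω → Ω₁) (g : Ω → Ω₂)
    (hf : Measurable f) (hg : Measurable g) (h : IndepFun f g P) (H : Ω₁ × Ω₂ → ℝ≥0∞)
    (hH : Measurable H) :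
    ∫⁻ ω, H (f ω, g ω) ∂P = ∫⁻ ω, ∫⁻ ω', H (f ω, g ω') ∂P ∂P := by
  have h1 := (indepFun_iff_map_prod_eq_prod_map_map hf.aemeasurable hg.aemeasurable).1 h
  have h2 : ∫⁻ ω, H (f ω, g ω) ∂P = ∫⁻ p, H p ∂(P.map fun ω => (f ω, g ω)) := by
    rw [lintegral_map hH (hf.prodMk hg)]
  rw [h2, h1, lintegral_prod _ hH.aemeasurable, lintegral_map hH.lintegral_prod_right' hf]
  refine lintegral_congr fun ω => ?_
  have hm : Measurable fun y => H (f ω, y) := hH.comp measurable_prodMk_left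
  rw [lintegral_map hm hg]

theorem ind : Pool.Agent.W854.HW.S_IND := by
  intro Ω mΩ P _ m₁ m₂ h₁ h₂ h H hH
  have hf : @Measurable Ω Ω mΩ m₁ id := fun s hs => h₁ s hs
  have hg : @Measurable Ω Ω mΩ m₂ id := fun s hs => h₂ s hs
  have hi : @IndepFun Ω Ω Ω mΩ m₁ m₂ id id P := by
    refine (@IndepFun_iff_Indep Ω Ω Ω mΩ m₁ m₂ id id P).2 ?_
    rw [MeasurableSpace.comap_id, MeasurableSpace.comap_id]
    exact h
  exact @ind_aux Ω Ω Ω mΩ m₁ m₂ P _ id id hf hg hi H hH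

theorem pow : Pool.Agent.W854.HW.S_POW := by
  intro μ _ k hk n
  have h := lintegral_prod_eq_prod_lintegral_of_indepFun (μ := Measure.pi fun _ : Fin n => μ)
    Finset.univ (fun i (y : Fin n → ℝ) => k (y i))
    (iIndepFun_pi (μ := fun _ : Fin n => μ) (X := fun _ => k) (fun _ => hk.aemeasurable))
    (fun i => hk.comp (measurable_pi_apply i))
  rw [h]
  have e : ∀ i : Fin n, ∫⁻ y, k (y i) ∂(Measure.pi fun _ : Fin n => μ) = ∫⁻ y, k y ∂μ := by
    intro i
    exact (measurePreserving_eval (fun _ : Fin n => μ) i).lintegral_comp hk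
  simp [e]

end Pool.Agent.W99.HW
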